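import Pool.Agent.helper82.UN.SpecP

set_option autoImplicit false

open NumberField Complex MeasureTheory nonZeroDivisors

namespace Pool.Agent.UN

theorem PGR_fun (y ξ x : ℝ) : (Real.exp (-(Real.pi * y * x ^ 2)) : ℂ) * ee (-(ξ * x)) =
    Complex.exp (((-(Real.pi * y) : ℝ) : ℂ) * (x : ℂ) ^ 2 + (-(2 * Real.pi * ξ) * I) * x + 0) := by
  unfold ee
  rw [Complex.ofReal_exp, ← Complex.exp_add]
  congr 1
  push_cast
  ring

theorem PGR_zero (y ξ : ℝ) (hy : 0 < y) :
    ∫ x : ℝ, (Real.exp (-(Real.pi * y * x ^ 2)) : ℂ) * ee (-(ξ * x)) =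
      ((y ^ (-((1 : ℝ) / 2)) : ℝ) : ℂ) * (Real.exp (-(Real.pi * (1 / y) * ξ ^ 2)) : ℂ) := by
  have hπ := Real.pi_pos
  have hy0 : (y : ℂ) ≠ 0 := by exact_mod_cast hy.ne'
  have hπ0 : (Real.pi : ℂ) ≠ 0 := by exact_mod_cast hπ.ne'
  simp_rw [PGR_fun]
  rw [integral_cexp_quadratic (by rw [Complex.ofReal_re]; nlinarith [mul_pos hπ hy])]
  congr 1
  · have h1 : (Real.pi : ℂ) / -((-(Real.pi * y) : ℝ) : ℂ) = ((1 / y : ℝ) : ℂ) := by
      push_cast
      field_simp
    rw [h1]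
    have h2 : ((1 : ℂ) / 2) = (((1 : ℝ) / 2 : ℝ) : ℂ) := by push_cast; rfl
    rw [h2, ← Complex.ofReal_cpow (by positivity)]
    congr 1
    rw [one_div, Real.inv_rpow hy.le, Real.rpow_neg hy.le]
  · rw [Complex.ofReal_exp]
    congr 1
    push_cast
    field_simp
    rw [Complex.I_sq]
    ring

theorem PGR_one (y ξ : ℝ) (hy : 0 < y) :
    ∫ x : ℝ, (x : ℂ) * (Real.exp (-(Real.pi * y * x ^ 2)) : ℂ) * ee (-(ξ * x)) =
      -I * ((1 / y : ℝ) : ℂ) * (ξ : ℂ) * ∫ x : ℝ, (Real.exp (-(Real.pi * y * x ^ 2)) : ℂ) * ee (-(ξ * x)) := by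
  have hπ := Real.pi_pos
  have hπy : 0 < Real.pi * y := mul_pos hπ hy
  have hy0 : (y : ℂ) ≠ 0 := by exact_mod_cast hy.ne'
  have hπ0 : (Real.pi : ℂ) ≠ 0 := by exact_mod_cast hπ.ne'
  set b : ℂ := ((-(Real.pi * y) : ℝ) : ℂ) with hb
  set c : ℂ := -(2 * Real.pi * ξ) * I with hc
  have hE : ∀ x : ℝ, (Real.exp (-(Real.pi * y * x ^ 2)) : ℂ) = Complex.exp (b * (x : ℂ) ^ 2) := by
    intro x
    rw [Complex.ofReal_exp, hb]
    congr 1
    push_cast
    ring
  have he : ∀ x : ℝ, ee (-(ξ * x)) = Complex.exp (c * (x : ℂ)) := by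
    intro x
    unfold ee
    rw [hc]
    congr 1
    push_cast
    ring
  have hcn : ∀ x : ℝ, ‖Complex.exp (c * (x : ℂ))‖ = 1 := by
    intro x
    rw [← he]
    unfold ee
    exact Complex.norm_exp_ofReal_mul_I _
  have hbn : ∀ x : ℝ, ‖Complex.exp (b * (x : ℂ) ^ 2)‖ = Real.exp (-(Real.pi * y) * x ^ 2) := by
    intro x
    rw [← hE, Complex.norm_real, Real.norm_of_nonneg (Real.exp_pos _).le]
    congr 1
    ring
  have hv : ∀ x : ℝ, HasDerivAt (fun x : ℝ => Complex.exp (b * (x : ℂ) ^ 2))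
      (Complex.exp (b * (x : ℂ) ^ 2) * (b * (2 * x))) x := by
    intro x
    have h1 : HasDerivAt (fun z : ℂ => Complex.exp (b * z ^ 2))
        (Complex.exp (b * (x : ℂ) ^ 2) * (b * (2 * x))) (x : ℂ) := by
      have h2 := ((hasDerivAt_pow 2 (x : ℂ)).const_mul b).cexp
      simpa using h2
    exact h1.comp_ofReal
  have hu : ∀ x : ℝ, HasDerivAt (fun x : ℝ => Complex.exp (c * (x : ℂ)))
      (Complex.exp (c * (x : ℂ)) * c) x := by
    intro x
    have h1 : HasDerivAt (fun z : ℂ => Complex.exp (c * z)) (Complex.exp (c * (x : ℂ)) * c) (x : ℂ) := by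
      have h2 := ((hasDerivAt_id (x : ℂ)).const_mul c).cexp
      simpa using h2
    exact h1.comp_ofReal
  have hg1 : Integrable (fun x : ℝ => x * Real.exp (-(Real.pi * y) * x ^ 2)) :=
    integrable_mul_exp_neg_mul_sq hπy
  have hg0 : Integrable (fun x : ℝ => Real.exp (-(Real.pi * y) * x ^ 2)) :=
    integrable_exp_neg_mul_sq hπy
  have hi1 : Integrable ((fun x : ℝ => Complex.exp (c * (x : ℂ))) *
      (fun x : ℝ => Complex.exp (b * (x : ℂ) ^ 2) * (b * (2 * x)))) := by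
    refine (hg1.norm.const_mul (2 * ‖b‖)).mono' ?_ ?_
    · refine Continuous.aestronglyMeasurable ?_
      exact (by fun_prop : Continuous fun x : ℝ => Complex.exp (c * (x : ℂ))).mul
        (by fun_prop : Continuous fun x : ℝ => Complex.exp (b * (x : ℂ) ^ 2) * (b * (2 * x)))
    · refine Filter.Eventually.of_forall fun x => ?_
      have hx : ‖(x : ℂ)‖ = ‖x‖ := Complex.norm_real x
      rw [Pi.mul_apply, norm_mul, norm_mul, hcn, hbn, norm_mul, norm_mul, norm_mul, hx,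
        Real.norm_of_nonneg (Real.exp_pos _).le]
      simp only [Complex.norm_ofNat]
      refine le_of_eq ?_
      ring
  have hi2 : Integrable ((fun x : ℝ => Complex.exp (c * (x : ℂ)) * c) *
      (fun x : ℝ => Complex.exp (b * (x : ℂ) ^ 2))) := by
    refine (hg0.const_mul ‖c‖).mono' ?_ ?_
    · refine Continuous.aestronglyMeasurable ?_
      exact (by fun_prop : Continuous fun x : ℝ => Complex.exp (c * (x : ℂ)) * c).mul
        (by fun_prop : Continuous fun x : ℝ => Complex.exp (b * (x : ℂ) ^ 2))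
    · refine Filter.Eventually.of_forall fun x => ?_
      rw [Pi.mul_apply, norm_mul, norm_mul, hcn, hbn]
      refine le_of_eq ?_
      ring
  have hi3 : Integrable ((fun x : ℝ => Complex.exp (c * (x : ℂ))) *
      (fun x : ℝ => Complex.exp (b * (x : ℂ) ^ 2))) := by
    refine hg0.mono' ?_ ?_
    · refine Continuous.aestronglyMeasurable ?_
      exact (by fun_prop : Continuous fun x : ℝ => Complex.exp (c * (x : ℂ))).mul
        (by fun_prop : Continuous fun x : ℝ => Complex.exp (b * (x : ℂ) ^ 2))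
    · refine Filter.Eventually.of_forall fun x => ?_
      rw [Pi.mul_apply, norm_mul, hcn, hbn]
      refine le_of_eq ?_
      ring
  have key := integral_mul_deriv_eq_deriv_mul_of_integrable (fun x _ => hu x) (fun x _ => hv x) hi1 hi2 hi3
  have hL : ∫ x : ℝ, Complex.exp (c * (x : ℂ)) * (Complex.exp (b * (x : ℂ) ^ 2) * (b * (2 * x))) =
      (2 * b) * ∫ x : ℝ, (x : ℂ) * (Real.exp (-(Real.pi * y * x ^ 2)) : ℂ) * ee (-(ξ * x)) := by
    rw [← integral_const_mul]
    refine integral_congr_ae (Filter.Eventually.of_forall fun x => ?_)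
    simp only [hE, he]
    ring
  have hR : ∫ x : ℝ, Complex.exp (c * (x : ℂ)) * c * Complex.exp (b * (x : ℂ) ^ 2) =
      c * ∫ x : ℝ, (Real.exp (-(Real.pi * y * x ^ 2)) : ℂ) * ee (-(ξ * x)) := by
    rw [← integral_const_mul]
    refine integral_congr_ae (Filter.Eventually.of_forall fun x => ?_)
    simp only [hE, he]
    ring
  rw [hL, hR] at key
  have hb0 : (2 * b) ≠ 0 := by
    refine mul_ne_zero two_ne_zero ?_
    rw [hb]
    exact_mod_cast (neg_ne_zero.2 hπy.ne')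
  refine mul_left_cancel₀ hb0 ?_
  rw [key, hb, hc]
  push_cast
  field_simp

theorem PGR : PGR_stmt := by
  intro y ξ e hy he
  have h0 := PGR_zero y ξ hy
  interval_cases e
  · simp only [pow_zero, one_mul, mul_one, Nat.cast_zero, add_zero]
    exact h0
  · simp only [pow_one, Nat.cast_one]
    rw [PGR_one y ξ hy, h0]
    have h1 : y ^ (-((1 : ℝ) / 2 + 1)) = (1 / y) * y ^ (-((1 : ℝ) / 2)) := by
      have h2 : (-((1 : ℝ) / 2 + 1)) = (-1) + (-((1 : ℝ) / 2)) := by ring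
      rw [h2, Real.rpow_add hy, Real.rpow_neg_one]
      ring
    rw [h1]
    push_cast
    ring

end Pool.Agent.UN
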